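import Pool.Agent.Work.MP_dcf6a6_tv.Defs

/-!
# Block statements for the theorem on MP_dcf6a6_ag

Proofs: see `BLUEPRINT.md`.
-/

open CategoryTheory AlgebraicGeometry

namespace Pool.TVar

noncomputable section

/-! ## Polynomial part -/

/-- DEG: top and bottom coefficient of a weighted homogeneous polynomial evaluated at
one-variable polynomials. -/
def Stmt_DEG : Prop :=
  ∀ {K R : Type} [Fintype K] [CommRing R] [Algebra ℂ R] (u : K → ℕ) (P : MvPolynomial K ℂ)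
    (δ N : ℕ) (z : K → Polynomial R),
    P.IsWeightedHomogeneous u δ → (∀ k, (z k).natDegree ≤ N * u k) →
    (MvPolynomial.aeval z P).natDegree ≤ N * δ ∧
    (MvPolynomial.aeval z P).coeff (N * δ) =
      MvPolynomial.aeval (fun k => (z k).coeff (N * u k)) P ∧
    (MvPolynomial.aeval z P).coeff 0 = MvPolynomial.aeval (fun k => (z k).coeff 0) P

/-- SQF: a squarefree weighted homogeneous polynomial stays squarefree on a general curve
`z_k = z1_k X^(N u_k) + c_k X + z0_k`. -/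
def Stmt_SQF : Prop :=
  ∀ {K : Type} [Fintype K] (u : K → ℕ) (H : MvPolynomial K ℂ) (δ N : ℕ) (z0 z1 : K → ℂ),
    (∀ k, 0 < u k) → 2 ≤ N → H.IsWeightedHomogeneous u δ → Squarefree H →
    MvPolynomial.eval z0 H ≠ 0 → MvPolynomial.eval z1 H ≠ 0 →
    ∃ c : K → ℂ, Squarefree (MvPolynomial.aeval
      (fun k => Polynomial.C (z1 k) * Polynomial.X ^ (N * u k) + Polynomial.C (c k) * Polynomial.X
        + Polynomial.C (z0 k)) H)

section

variable {J K I B : Type} [Fintype J] [Fintype K] [Fintype B]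
    [DecidableEq J] [DecidableEq K] [DecidableEq I] (D : Data J K I B)

/-- `x` is (the coordinate vector of) a point of the affine cone. -/
def Data.IsPt (x : J ⊕ K → ℂ) : Prop :=
  ∀ a, ∏ j with D.ja j = a, x (Sum.inl j) =
    ∏ b with D.ba b = a, (MvPolynomial.eval (fun k => x (Sum.inr k)) (D.P b)) ^ D.m b

end

/-- ZED: curves `z_k` in the `S`-space with prescribed start and end and general in between. -/
def Stmt_ZED : Prop :=
  ∀ {J K I B : Type} [Fintype J] [Fintype K] [Fintype B]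
    [DecidableEq J] [DecidableEq K] [DecidableEq I] (D : Data J K I B) (x y : J ⊕ K → ℂ) (N : ℕ),
    2 ≤ N → D.IsPt x → D.IsPt y → (∀ v, x v ≠ 0) → (∀ v, y v ≠ 0) →
    ∃ z : K → Polynomial ℂ,
      (∀ k, (z k).natDegree = N * D.u k ∧ (z k).leadingCoeff = y (Sum.inr k) ∧
        (z k).coeff 0 = x (Sum.inr k)) ∧
      (∀ b, MvPolynomial.eval (fun k => y (Sum.inr k)) (D.P b) ≠ 0 ∧
        MvPolynomial.eval (fun k => x (Sum.inr k)) (D.P b) ≠ 0 ∧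
        (MvPolynomial.aeval z (D.P b)).natDegree = N * D.p b ∧
        (MvPolynomial.aeval z (D.P b)).leadingCoeff =
          MvPolynomial.eval (fun k => y (Sum.inr k)) (D.P b) ∧
        (MvPolynomial.aeval z (D.P b)).coeff 0 =
          MvPolynomial.eval (fun k => x (Sum.inr k)) (D.P b) ∧
        Squarefree (MvPolynomial.aeval z (D.P b))) ∧
      (∀ b b', b ≠ b' → IsCoprime (MvPolynomial.aeval z (D.P b)) (MvPolynomial.aeval z (D.P b'))) ∧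
      (∀ b k, IsCoprime (MvPolynomial.aeval z (D.P b)) (z k)) ∧
      (∀ k k', k ≠ k' → IsCoprime (z k) (z k'))

/-- QJ: distribute the roots `R b` of the `P_b(z)` over the variables of the block. -/
def Stmt_QJ : Prop :=
  ∀ {J I B : Type} [Fintype J] [Fintype B] [DecidableEq J] [DecidableEq I]
    (ja : J → I) (ba : B → I) (w : J → ℕ) (m p : B → ℕ) (N : ℕ) (R : B → Finset ℂ),
    (∀ j, 0 < w j) → (∀ b, 0 < m b) → (∀ b, 0 < p b) →
    (∀ a, ∑ j with ja j = a, w j = ∑ b with ba b = a, m b * p b) →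
    0 < N → (∀ j, (∑ i with ja i = ja j, w i) ∣ N) →
    (∀ b, (∃ j, ja j = ba b)) →
    (∀ b b', b ≠ b' → Disjoint (R b) (R b')) → (∀ b, (R b).card = N * p b) →
    ∃ (Q Q' : J → Polynomial ℂ) (s : J → ℂ) (μ : I → ℕ),
      (∀ a, 0 < μ a) ∧
      (∀ j, (Q j).Monic ∧ (Q j).natDegree = N * w j ∧
        Q j = (Polynomial.X - Polynomial.C (s j)) ^ μ (ja j) * Q' j ∧
        (Q' j).eval (s j) ≠ 0) ∧
      (∀ j t, (Q j).IsRoot t → ∃ b, ba b = ja j ∧ t ∈ R b) ∧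
      (∀ i j, i ≠ j → IsCoprime (Q i) (Q j)) ∧
      (∀ a, ∏ j with ja j = a, Q j =
        ∏ b with ba b = a, (∏ α ∈ R b, (Polynomial.X - Polynomial.C α)) ^ m b)

/-- BASE: the solution of the relations before the correction of the starting point. -/
def Stmt_BASE : Prop :=
  ∀ {J K I B : Type} [Fintype J] [Fintype K] [Fintype B]
    [DecidableEq J] [DecidableEq K] [DecidableEq I] (D : Data J K I B) (x y : J ⊕ K → ℂ),
    D.IsPt x → D.IsPt y → (∀ v, x v ≠ 0) → (∀ v, y v ≠ 0) →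
    ∃ (N : ℕ) (z : K → Polynomial ℂ) (Q Q' : J → Polynomial ℂ) (s : J → ℂ) (μ : I → ℕ),
      0 < N ∧ (∀ a, 0 < μ a) ∧
      (∀ k, (z k).natDegree = N * D.u k ∧ (z k).leadingCoeff = y (Sum.inr k) ∧
        (z k).coeff 0 = x (Sum.inr k)) ∧
      (∀ j, (Q j).Monic ∧ (Q j).natDegree = N * D.w j ∧
        Q j = (Polynomial.X - Polynomial.C (s j)) ^ μ (D.ja j) * Q' j ∧
        (Q' j).eval (s j) ≠ 0) ∧
      (∀ a, ∏ j with D.ja j = a, (Polynomial.C (y (Sum.inl j)) * Q j) =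
        ∏ b with D.ba b = a, (MvPolynomial.aeval z (D.P b)) ^ D.m b) ∧
      (∀ i j, i ≠ j → IsCoprime (Q i) (Q j)) ∧
      (∀ j k, IsCoprime (Q j) (z k)) ∧
      (∀ k k', k ≠ k' → IsCoprime (z k) (z k'))

/-- CYC: cyclic telescoping on the blocks. -/
def Stmt_CYC : Prop :=
  ∀ {J I : Type} [Fintype J] [DecidableEq J] [DecidableEq I] (ja : J → I) (κ : J → ℂ) (μ : I → ℕ),
    (∀ j, κ j ≠ 0) → (∀ a, ∏ j with ja j = a, κ j = 1) → (∀ a, 0 < μ a) →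
    ∃ (σ : Equiv.Perm J) (c : J → ℂ), (∀ j, ja (σ j) = ja j) ∧ (∀ j, c j ≠ 0) ∧
      ∀ j, (c (σ j) / c j) ^ μ (ja j) = κ j

/-- RHO: distinct nonzero pairs with prescribed products. -/
def Stmt_RHO : Prop :=
  ∀ {J : Type} [Fintype J] (c : J → ℂ), (∀ j, c j ≠ 0) →
    ∃ ρ ρ' : J → ℂ, Function.Injective (Sum.elim ρ ρ') ∧ (∀ j, ρ j ≠ 0) ∧ (∀ j, ρ' j ≠ 0) ∧
      ∀ j, ρ j * ρ' j = c j

/-- HERM: interpolation by a monic polynomial with nonvanishing derivatives. -/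
def Stmt_HERM : Prop :=
  ∀ {L : Type} [Fintype L] (ρ v : L → ℂ), Function.Injective ρ → (∀ i, ρ i ≠ 0) →
    ∃ q : Polynomial ℂ, q.Monic ∧ 0 < q.natDegree ∧ q.eval 0 = 0 ∧ (∀ i, q.eval (ρ i) = v i) ∧
      ∀ i, (Polynomial.derivative q).eval (ρ i) ≠ 0

/-- CORE: the polynomial solution through `x` and `y` with pairwise coprime coordinates. -/
def Stmt_CORE : Prop :=
  ∀ {J K I B : Type} [Fintype J] [Fintype K] [Fintype B]
    [DecidableEq J] [DecidableEq K] [DecidableEq I] (D : Data J K I B) (x y : J ⊕ K → ℂ),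
    D.IsPt x → D.IsPt y → (∀ v, x v ≠ 0) → (∀ v, y v ≠ 0) →
    ∃ (N : ℕ) (τ : J ⊕ K → Polynomial ℂ), 0 < N ∧
      (∀ v, (τ v).natDegree = N * D.wt v ∧ (τ v).leadingCoeff = y v ∧ (τ v).coeff 0 = x v) ∧
      (∀ a, ∏ j with D.ja j = a, τ (Sum.inl j) =
        ∏ b with D.ba b = a, (MvPolynomial.aeval (fun k => τ (Sum.inr k)) (D.P b)) ^ D.m b) ∧
      (∀ v v', v ≠ v' → IsCoprime (τ v) (τ v'))

/-! ## Graded algebra part -/

/-- RET: if `β/α` has degree `-1` and is invertible after inverting `h`, then the degree-zero part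
of `A_h` is a retract of `A_h`. -/
def Stmt_RET : Prop :=
  ∀ {A : Type} [CommRing A] [Algebra ℂ A] (𝒜 : ℕ → Submodule ℂ A) [GradedAlgebra 𝒜]
    (h α β : A) (m s : ℕ), h ∈ 𝒜 m → α ∈ 𝒜 (s + 1) → β ∈ 𝒜 s →
    (∃ i : ℕ, α ∣ h ^ i) → (∃ i : ℕ, β ∣ h ^ i) →
    ∃ ρ : Localization.Away h →+* HomogeneousLocalization.Away 𝒜 h,
      (∀ z : HomogeneousLocalization.Away 𝒜 h, ρ z.val = z) ∧
      ∀ n, ∀ a ∈ 𝒜 n, (ρ (algebraMap A (Localization.Away h) a)).val *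
        algebraMap A (Localization.Away h) (α ^ n) =
          algebraMap A (Localization.Away h) (a * β ^ n)

/-- GCD: Bezout with exponents. -/
def Stmt_GCD : Prop :=
  ∀ {V : Type} (S : Finset V) (wt : V → ℕ), S.gcd wt = 1 →
    ∃ e e' : V → ℕ, ∑ v ∈ S, e v * wt v = (∑ v ∈ S, e' v * wt v) + 1

/-- FS: the affine cone minus all but one of the coordinate hyperplanes is smooth. -/
def Stmt_FS : Prop :=
  ∀ {J K I B : Type} [Fintype J] [Fintype K] [Fintype B]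
    [DecidableEq J] [DecidableEq K] [DecidableEq I] (D : Data J K I B)
    {A : Type} [CommRing A] [Algebra ℂ A] (𝒜 : ℕ → Submodule ℂ A) [GradedAlgebra 𝒜]
    (pr : D.Pres A 𝒜) (v : J ⊕ K),
    Algebra.FormallySmooth ℂ
      (Localization.Away (∏ v' ∈ Finset.univ.erase v, pr.π (MvPolynomial.X v')))

/-- SMO: smoothness of the coordinate ring of `D_+(∏_{v' ≠ v} x_{v'})`. -/
def Stmt_SMO : Prop :=
  ∀ {J K I B : Type} [Fintype J] [Fintype K] [Fintype B]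
    [DecidableEq J] [DecidableEq K] [DecidableEq I] (D : Data J K I B)
    {A : Type} [CommRing A] [Algebra ℂ A] (𝒜 : ℕ → Submodule ℂ A) [GradedAlgebra 𝒜]
    (pr : D.Pres A 𝒜) (v : J ⊕ K),
    (strAway 𝒜 (∏ v' ∈ Finset.univ.erase v, pr.π (MvPolynomial.X v'))).Smooth

/-- LOC: smoothness of `D_+(h)` from its coordinate ring. -/
def Stmt_LOC : Prop :=
  ∀ {A : Type} [CommRing A] [Algebra ℂ A] (𝒜 : ℕ → Submodule ℂ A) [GradedAlgebra 𝒜]
    (h : A) (m : ℕ), h ∈ 𝒜 m → 0 < m → (strAway 𝒜 h).Smooth →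
    ∀ x : Proj 𝒜, x ∈ Proj.basicOpen 𝒜 h → IsSmoothPt (structMap 𝒜) x

/-- PMAP: the morphism of projective spectra defined by a homomorphism multiplying degrees
by `d` and without base points. -/
def Stmt_PMAP : Prop :=
  ∀ {A B : Type} [CommRing A] [Algebra ℂ A] [CommRing B] [Algebra ℂ B]
    (𝒜 : ℕ → Submodule ℂ A) [GradedAlgebra 𝒜] (ℬ : ℕ → Submodule ℂ B) [GradedAlgebra ℬ]
    (φ : A →ₐ[ℂ] B) (d : ℕ), 0 < d → (∀ n, ∀ a ∈ 𝒜 n, φ a ∈ ℬ (d * n)) →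
    (∀ q : Proj ℬ, ∃ n, 0 < n ∧ ∃ a ∈ 𝒜 n, φ a ∉ q.asHomogeneousIdeal) →
    ∃ f : Proj ℬ ⟶ Proj 𝒜, f ≫ structMap 𝒜 = structMap ℬ ∧
      ∀ q : Proj ℬ, ∀ n, ∀ a ∈ 𝒜 n, a ∈ (f q).asHomogeneousIdeal ↔ φ a ∈ q.asHomogeneousIdeal

/-- PTS: closed points of `D_+(g)` are given by algebra homomorphisms `A → ℂ`. -/
def Stmt_PTS : Prop :=
  ∀ {A : Type} [CommRing A] [Algebra ℂ A] (𝒜 : ℕ → Submodule ℂ A) [GradedAlgebra 𝒜]
    (g α β : A) (m s : ℕ), Algebra.FiniteType ℂ A → g ∈ 𝒜 m → 0 < m → α ∈ 𝒜 (s + 1) → β ∈ 𝒜 s →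
    (∃ i : ℕ, α ∣ g ^ i) → (∃ i : ℕ, β ∣ g ^ i) →
    ∀ x : Proj 𝒜, x ∈ Proj.basicOpen 𝒜 g → IsClosed ({x} : Set (Proj 𝒜)) →
      ∃ e : A →ₐ[ℂ] ℂ, e g ≠ 0 ∧ ∀ n, ∀ a ∈ 𝒜 n, a ∈ x.asHomogeneousIdeal ↔ e a = 0

/-- HOMG: homogenisation of one-variable polynomials. -/
def Stmt_HOMG : Prop :=
  (∀ (f : Polynomial ℂ) (d : ℕ), f.natDegree ≤ d →
    f.homogenize d ∈ lineGr d ∧
    (∀ t, MvPolynomial.eval ![t, 1] (f.homogenize d) = f.eval t) ∧
    (∀ t, MvPolynomial.eval ![t, 0] (f.homogenize d) = f.coeff d * t ^ d)) ∧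
  (∀ (F G : MvPolynomial (Fin 2) ℂ) (d : ℕ), F ∈ lineGr d → G ∈ lineGr d →
    (∀ t, MvPolynomial.eval ![t, 1] F = MvPolynomial.eval ![t, 1] G) → F = G)

/-- PHI: the homomorphism to `ℂ[X_0, X_1]` defined by the polynomial solution. -/
def Stmt_PHI : Prop :=
  ∀ {J K I B : Type} [Fintype J] [Fintype K] [Fintype B]
    [DecidableEq J] [DecidableEq K] [DecidableEq I] (D : Data J K I B)
    {A : Type} [CommRing A] [Algebra ℂ A] (𝒜 : ℕ → Submodule ℂ A) [GradedAlgebra 𝒜]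
    (pr : D.Pres A 𝒜) (y : J ⊕ K → ℂ) (N : ℕ) (τ : J ⊕ K → Polynomial ℂ), 0 < N →
    (∀ v, y v ≠ 0) → (∀ v, (τ v).natDegree = N * D.wt v ∧ (τ v).leadingCoeff = y v) →
    (∀ a, ∏ j with D.ja j = a, τ (Sum.inl j) =
      ∏ b with D.ba b = a, (MvPolynomial.aeval (fun k => τ (Sum.inr k)) (D.P b)) ^ D.m b) →
    (∀ v v', v ≠ v' → IsCoprime (τ v) (τ v')) →
    ∃ φ : A →ₐ[ℂ] MvPolynomial (Fin 2) ℂ,
      (∀ n, ∀ a ∈ 𝒜 n, φ a ∈ lineGr (N * n)) ∧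
      (∀ v t, MvPolynomial.eval ![t, 1] (φ (pr.π (MvPolynomial.X v))) = (τ v).eval t) ∧
      (∀ v t, MvPolynomial.eval ![t, 0] (φ (pr.π (MvPolynomial.X v))) =
        y v * t ^ (N * D.wt v)) ∧
      (∀ q : Ideal (MvPolynomial (Fin 2) ℂ), q.IsPrime →
        (MvPolynomial.X 0 ∉ q ∨ MvPolynomial.X 1 ∉ q) →
        ∀ v v', v ≠ v' → φ (pr.π (MvPolynomial.X v)) ∈ q → φ (pr.π (MvPolynomial.X v')) ∉ q)

/-- P1: the closed points of the projective line. -/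
def Stmt_P1 : Prop :=
  (∀ c : Fin 2 → ℂ, c ≠ 0 → ∃ q : Proj lineGr, ∀ n, ∀ F ∈ lineGr n,
    F ∈ q.asHomogeneousIdeal ↔ MvPolynomial.eval c F = 0) ∧
  (∀ q : Proj lineGr, MvPolynomial.X 0 ∉ q.asHomogeneousIdeal ∨
    MvPolynomial.X 1 ∉ q.asHomogeneousIdeal)

/-- NZ: the variables do not vanish in `A`. -/
def Stmt_NZ : Prop :=
  ∀ {J K I B : Type} [Fintype J] [Fintype K] [Fintype B]
    [DecidableEq J] [DecidableEq K] [DecidableEq I] (D : Data J K I B)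
    {A : Type} [CommRing A] [Algebra ℂ A] (𝒜 : ℕ → Submodule ℂ A) [GradedAlgebra 𝒜]
    (pr : D.Pres A 𝒜) (v : J ⊕ K), pr.π (MvPolynomial.X v) ≠ 0

/-- DENS: nonempty basic open sets are dense. -/
def Stmt_DENS : Prop :=
  ∀ {A : Type} [CommRing A] [IsDomain A] [Algebra ℂ A] (𝒜 : ℕ → Submodule ℂ A) [GradedAlgebra 𝒜]
    (g : A) (m : ℕ), g ∈ 𝒜 m → g ≠ 0 → Dense (Proj.basicOpen 𝒜 g : Set (Proj 𝒜))

/-- The main theorem. -/
def Stmt_MAIN : Prop :=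
  ∀ {J K I B : Type} [Fintype J] [Fintype K] [Fintype B]
    [DecidableEq J] [DecidableEq K] [DecidableEq I] (D : Data J K I B)
    {A : Type} [CommRing A] [IsDomain A] [Algebra ℂ A] (𝒜 : ℕ → Submodule ℂ A) [GradedAlgebra 𝒜],
    D.Pres A 𝒜 →
    ∃ U : (Proj 𝒜).Opens, Dense (U : Set (Proj 𝒜)) ∧ (∀ x ∈ U, IsSmoothPt (structMap 𝒜) x) ∧
      ∀ x y : Proj 𝒜, x ∈ U → y ∈ U → IsClosed ({x} : Set (Proj 𝒜)) →
        IsClosed ({y} : Set (Proj 𝒜)) →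
        ∃ f : Proj lineGr ⟶ Proj 𝒜, f ≫ structMap 𝒜 = structMap lineGr ∧
          (∀ q, IsSmoothPt (structMap 𝒜) (f q)) ∧ (∃ q q', f q ≠ f q') ∧
          x ∈ Set.range f ∧ y ∈ Set.range f

end

end Pool.TVar
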