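import Mathlib

/-!
# Definitions for the theorem on MP_dcf6a6_ag (smooth loci of T-varieties over weighted
projective spaces)
-/

open CategoryTheory AlgebraicGeometry

namespace Pool.TVar

noncomputable section

/-- The combinatorial data: variables `T_j` (`j : J`, weights `w j`) distributed over finitely many
blocks `ja j : I`; variables `S_k` (`k : K`, weights `u k`); for every block `a` a polynomial
`G_a = ∏_{b, ba b = a} P_b ^ m_b` in the `S_k`, weighted homogeneous of degree the sum of the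
weights of the `T_j` of the block. -/
structure Data (J K I B : Type) [Fintype J] [Fintype K] [Fintype B]
    [DecidableEq J] [DecidableEq K] [DecidableEq I] where
  /-- the block of `T_j` -/
  ja : J → I
  /-- the block of `P_b` -/
  ba : B → I
  /-- the weight of `T_j` -/
  w : J → ℕ
  /-- the weight of `S_k` -/
  u : K → ℕ
  /-- the exponent of `P_b` -/
  m : B → ℕ
  /-- the degree of `P_b` -/
  p : B → ℕ
  /-- the polynomials `P_b` in the variables `S_k` -/
  P : B → MvPolynomial K ℂ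
  ja_surj : Function.Surjective ja
  w_pos : ∀ j, 0 < w j
  u_pos : ∀ k, 0 < u k
  m_pos : ∀ b, 0 < m b
  p_pos : ∀ b, 0 < p b
  homog : ∀ b, (P b).IsWeightedHomogeneous u (p b)
  balanced : ∀ a, ∑ j with ja j = a, w j = ∑ b with ba b = a, m b * p b
  squarefree : Squarefree ((∏ b, P b) * ∏ k, MvPolynomial.X k)
  wellformed : ∀ v : J ⊕ K, (Finset.univ.erase v).gcd (Sum.elim w u) = 1

section

variable {J K I B : Type} [Fintype J] [Fintype K] [Fintype B]
    [DecidableEq J] [DecidableEq K] [DecidableEq I] (D : Data J K I B)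

/-- the weights of all the variables -/
def Data.wt : J ⊕ K → ℕ := Sum.elim D.w D.u

/-- The relation of block `a`: `∏_{ja j = a} T_j - ∏_{ba b = a} P_b(S) ^ m_b`. -/
def Data.rel (a : I) : MvPolynomial (J ⊕ K) ℂ :=
  ∏ j with D.ja j = a, MvPolynomial.X (Sum.inl j) -
    ∏ b with D.ba b = a, (MvPolynomial.rename Sum.inr (D.P b)) ^ D.m b

/-- `𝒜` is a grading of the `ℂ`-algebra `A`, presented as
`ℂ[T_j, S_k] / (∏_{ja j = a} T_j = ∏_{ba b = a} P_b(S) ^ m_b)` with `T_j` in degree `w j` and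
`S_k` in degree `u k`. -/
structure Data.Pres (A : Type) [CommRing A] [Algebra ℂ A] (𝒜 : ℕ → Submodule ℂ A)
    [GradedAlgebra 𝒜] where
  /-- the presentation map -/
  π : MvPolynomial (J ⊕ K) ℂ →ₐ[ℂ] A
  surj : Function.Surjective π
  graded : ∀ v, π (MvPolynomial.X v) ∈ 𝒜 (D.wt v)
  ker : RingHom.ker π = Ideal.span (Set.range D.rel)

end

/-- The structure map `Proj 𝒜 ⟶ Spec ℂ` of the projective spectrum of a graded `ℂ`-algebra. -/
def structMap {A : Type} [CommRing A] [Algebra ℂ A] (𝒜 : ℕ → Submodule ℂ A) [GradedAlgebra 𝒜] :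
    Proj 𝒜 ⟶ Spec (CommRingCat.of ℂ) :=
  Proj.toSpecZero 𝒜 ≫ Spec.map (CommRingCat.ofHom (algebraMap ℂ (𝒜 0)))

/-- `x` is a smooth (= nonsingular) point of the `ℂ`-scheme `f : X ⟶ Spec ℂ`: some open
neighbourhood of `x` is smooth over `ℂ`. -/
def IsSmoothPt {X : Scheme.{0}} (f : X ⟶ Spec (CommRingCat.of ℂ)) (x : X) : Prop :=
  ∃ U : X.Opens, x ∈ U ∧ Smooth (U.ι ≫ f)

/-- The grading of `ℂ[X_0, X_1]` by degree; its `Proj` is the projective line. -/
abbrev lineGr : ℕ → Submodule ℂ (MvPolynomial (Fin 2) ℂ) :=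
  MvPolynomial.homogeneousSubmodule (Fin 2) ℂ

instance lineGrGradedAlgebra : GradedAlgebra lineGr := MvPolynomial.gradedAlgebra

/-- The structure homomorphism `ℂ → (A_h)_0`. -/
def strAway {A : Type} [CommRing A] [Algebra ℂ A] (𝒜 : ℕ → Submodule ℂ A) [GradedAlgebra 𝒜]
    (h : A) : ℂ →+* HomogeneousLocalization.Away 𝒜 h :=
  (HomogeneousLocalization.fromZeroRingHom 𝒜 (Submonoid.powers h)).comp (algebraMap ℂ (𝒜 0))

end

end Pool.TVar
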